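import Mathlib

set_option autoImplicit false

namespace Pool.Agent.H.MP_3aed06_nt
open Finset

lemma crt_sum {m n : ℕ} (hm : 0 < m) (hn : 0 < n) (hc : Nat.Coprime m n) (f g : ℕ → ℝ)
    (hf : Function.Periodic f m) (hg : Function.Periodic g n) :
    ∑ x ∈ range (m * n), f x * g x = (∑ a ∈ range m, f a) * ∑ b ∈ range n, g b := by
  rw [sum_mul_sum, ← sum_product']
  apply sum_nbij' (fun x => (x % m, x % n)) (fun z => (Nat.chineseRemainder hc z.1 z.2 : ℕ))
  · intro x _
    simp [Nat.mod_lt _ hm, Nat.mod_lt _ hn]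
  · intro z _
    exact mem_range.mpr (Nat.chineseRemainder_lt_mul hc _ _ hm.ne' hn.ne')
  · intro x hx
    apply Nat.ModEq.eq_of_lt_of_lt _ (Nat.chineseRemainder_lt_mul hc _ _ hm.ne' hn.ne')
      (mem_range.mp hx)
    rw [← Nat.modEq_and_modEq_iff_modEq_mul hc]
    exact ⟨(Nat.chineseRemainder hc _ _).2.1.trans (Nat.mod_modEq _ _),
      (Nat.chineseRemainder hc _ _).2.2.trans (Nat.mod_modEq _ _)⟩
  · intro z hz
    simp only [mem_product, mem_range] at hz
    have h1 : (Nat.chineseRemainder hc z.1 z.2 : ℕ) % m = z.1 % m := (Nat.chineseRemainder hc _ _).2.1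
    have h2 : (Nat.chineseRemainder hc z.1 z.2 : ℕ) % n = z.2 % n := (Nat.chineseRemainder hc _ _).2.2
    rw [h1, h2, Nat.mod_eq_of_lt hz.1, Nat.mod_eq_of_lt hz.2]
  · intro x _
    simp only [hf.map_mod_nat, hg.map_mod_nat]

lemma per_prod (S : Finset ℕ) (u : ℕ → ℕ → ℝ) (hu : ∀ l ∈ S, Function.Periodic (u l) l) :
    Function.Periodic (fun x => ∏ l ∈ S, u l x) (∏ l ∈ S, l) := by
  intro x
  apply prod_congr rfl
  intro l hl
  obtain ⟨c, hc⟩ := dvd_prod_of_mem (fun l => l) hl
  rw [hc, mul_comm]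
  exact (hu l hl).nat_mul c x

lemma prod_mean (S : Finset ℕ) (hS : ∀ l ∈ S, l.Prime) (u : ℕ → ℕ → ℝ)
    (hu : ∀ l ∈ S, Function.Periodic (u l) l) :
    ∑ x ∈ range (∏ l ∈ S, l), ∏ l ∈ S, u l x = ∏ l ∈ S, ∑ x ∈ range l, u l x := by
  induction S using Finset.induction_on with
  | empty => simp
  | insert a S ha ih =>
    have h1 : ∀ l ∈ S, l.Prime := fun l hl => hS l (mem_insert_of_mem hl)
    have h2 : ∀ l ∈ S, Function.Periodic (u l) l := fun l hl => hu l (mem_insert_of_mem hl)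
    simp only [prod_insert ha]
    rw [← ih h1 h2]
    apply crt_sum (hS a (mem_insert_self _ _)).pos (prod_pos fun l hl => (h1 l hl).pos) _ _ _
      (hu a (mem_insert_self _ _)) (per_prod S u h2)
    apply Nat.Coprime.prod_right
    intro l hl
    exact (Nat.coprime_primes (hS a (mem_insert_self _ _)) (h1 l hl)).mpr (fun e => ha (e ▸ hl))

lemma per_shift (f : ℕ → ℝ) (M : ℕ) (hf : Function.Periodic f M) (x : ℕ) :
    ∑ n ∈ range M, f (x + n) = ∑ n ∈ range M, f n := by
  induction x with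
  | zero => simp
  | succ x ih =>
    have h1 := sum_range_succ (fun n => f (x + n)) M
    have h2 := sum_range_succ' (fun n => f (x + n)) M
    rw [hf x] at h1
    simp only [add_zero] at h2
    have h3 : ∑ n ∈ range M, f (x + 1 + n) = ∑ n ∈ range M, f (x + (n + 1)) :=
      sum_congr rfl fun n _ => by congr 1; ring
    linarith

lemma per_sum (f : ℕ → ℝ) (M : ℕ) (hM : 0 < M) (hf : Function.Periodic f M)
    (h1 : ∀ n, |f n| ≤ 1) (x y : ℕ) :
    ∑ n ∈ range y, f (x + n) ≤ (y : ℝ) / M * ∑ n ∈ range M, f n + 2 * M := by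
  have hk : ∀ k, ∑ n ∈ range (k * M), f (x + n) = k * ∑ n ∈ range M, f n := by
    intro k
    induction k with
    | zero => simp
    | succ k ih =>
      rw [Nat.succ_mul, sum_range_add, ih]
      simp only [← add_assoc]
      rw [per_shift f M hf]
      push_cast; ring
  have hb : ∀ (r z : ℕ), |∑ n ∈ range r, f (z + n)| ≤ r := fun r z =>
    (abs_sum_le_sum_abs _ _).trans (by simpa using sum_le_card_nsmul (range r) _ 1 (fun n _ => h1 _))
  have hy := Nat.div_add_mod' y M
  have hr := Nat.mod_lt y hM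
  have h2 : ∑ n ∈ range y, f (x + n) = (y / M : ℕ) * ∑ n ∈ range M, f n +
      ∑ n ∈ range (y % M), f (x + y / M * M + n) := by
    conv_lhs => rw [← hy]
    rw [sum_range_add, hk]
    simp only [← add_assoc]
  have h3 := hb (y % M) (x + y / M * M)
  have h4 := hb M 0
  simp only [zero_add] at h4
  have hM' : (0 : ℝ) < M := by exact_mod_cast hM
  have hr' : ((y % M : ℕ) : ℝ) ≤ M := by exact_mod_cast hr.le
  have h5 : (y : ℝ) / M = (y / M : ℕ) + ((y % M : ℕ) : ℝ) / M := by
    have : (y : ℝ) = (y / M : ℕ) * M + (y % M : ℕ) := by exact_mod_cast hy.symm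
    field_simp
    linarith
  have h6 : (0 : ℝ) ≤ ((y % M : ℕ) : ℝ) / M := by positivity
  have h7 : ((y % M : ℕ) : ℝ) / M ≤ 1 := by rwa [div_le_one hM']
  rw [h2, h5]
  rw [abs_le] at h3 h4
  nlinarith [h3.2, h4.1]

lemma sieve (P : Finset ℕ) (hP : ∀ l ∈ P, l.Prime) (G : ℕ → ℕ → ℝ) (g : ℕ → ℝ)
    (hper : ∀ l ∈ P, Function.Periodic (G l) l) (h1 : ∀ l ∈ P, ∀ n, |G l n| ≤ 1)
    (hm : ∀ l ∈ P, ∑ n ∈ range l, G l n = 0)
    (hv : ∀ l ∈ P, ∑ n ∈ range l, G l n * G l n = l * g l)
    (z x y : ℕ) (S : Finset ℕ) (hS : S ⊆ range y) (hG : ∀ n ∈ S, ∀ l ∈ P, G l (x + n) = g l)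
    (L : ℝ) (hL : L = ∑ T ∈ P.powerset.filter (fun T => ∏ l ∈ T, l ≤ z), ∏ l ∈ T, g l) :
    S.card * L ^ 2 ≤ y * L + 2 * (z : ℝ) ^ 4 := by
  set Q := P.powerset.filter (fun T => ∏ l ∈ T, l ≤ z) with hQ
  have hQP : ∀ T ∈ Q, T ⊆ P := fun T hT => mem_powerset.mp (mem_filter.mp hT).1
  have hQz : ∀ T ∈ Q, ∏ l ∈ T, l ≤ z := fun T hT => (mem_filter.mp hT).2
  have hQc : Q.card ≤ z := by
    have : Q.card ≤ (Icc 1 z).card := by
      apply card_le_card_of_injOn (fun T => ∏ l ∈ T, l)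
      · intro T hT
        exact mem_coe.mpr (mem_Icc.mpr ⟨prod_pos fun l hl => (hP l (hQP T hT hl)).pos, hQz T hT⟩)
      · intro T hT T' hT' e
        have := congrArg Nat.primeFactors e
        simp only at this
        rwa [Nat.primeFactors_prod (fun l hl => hP l (hQP T hT hl)),
          Nat.primeFactors_prod (fun l hl => hP l (hQP T' hT' hl))] at this
    simpa using this
  have key : ∀ T ∈ Q, ∀ T' ∈ Q, ∑ n ∈ range y, (∏ l ∈ T, G l (x + n)) * ∏ l ∈ T', G l (x + n) ≤
      (if T = T' then y * ∏ l ∈ T, g l else 0) + 2 * (z : ℝ) ^ 2 := by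
    intro T hT T' hT'
    set u : ℕ → ℕ → ℝ := fun l n =>
      (if l ∈ T then G l n else 1) * (if l ∈ T' then G l n else 1) with hu
    have hU : T ∪ T' ⊆ P := union_subset (hQP T hT) (hQP T' hT')
    have e1 : ∀ n, (∏ l ∈ T, G l n) * ∏ l ∈ T', G l n = ∏ l ∈ T ∪ T', u l n := by
      intro n
      simp only [hu, prod_mul_distrib, prod_ite_mem, union_inter_cancel_left,
        union_inter_cancel_right]
    have e2 : ∀ l ∈ T ∪ T', Function.Periodic (u l) l := by
      intro l hl n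
      simp only [hu, hper l (hU hl) n]
    have hM : 0 < ∏ l ∈ T ∪ T', l := prod_pos fun l hl => (hP l (hU hl)).pos
    have e3 := per_sum (fun n => ∏ l ∈ T ∪ T', u l n) _ hM (per_prod _ u e2) (fun n => by
      rw [abs_prod]
      apply prod_le_one (fun _ _ => abs_nonneg _)
      intro l hl
      have := h1 l (hU hl) n
      simp only [hu, abs_mul]
      apply mul_le_one₀ _ (abs_nonneg _) <;> split_ifs <;> simp [this]) x y
    rw [prod_mean _ (fun l hl => hP l (hU hl)) u e2] at e3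
    simp only [e1]
    refine e3.trans (add_le_add ?_ ?_)
    · split_ifs with h
      · subst h
        simp only [union_self] at hM ⊢
        have : ∏ l ∈ T, ∑ n ∈ range l, u l n = ∏ l ∈ T, (l * g l) := by
          apply prod_congr rfl
          intro l hl
          simp only [hu, if_pos hl]
          exact hv l (hQP T hT hl)
        rw [this, prod_mul_distrib]
        have hM' : (0 : ℝ) < ∏ l ∈ T, (l : ℝ) :=
          prod_pos fun l hl => by exact_mod_cast (hP l (hQP T hT hl)).pos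
        push_cast
        field_simp
        exact le_rfl
      · have : ∃ l ∈ T ∪ T', ¬ (l ∈ T ∧ l ∈ T') := by
          by_contra hc
          push Not at hc
          exact h (Subset.antisymm (fun l hl => (hc l (mem_union_left _ hl)).2)
            (fun l hl => (hc l (mem_union_right _ hl)).1))
        obtain ⟨l, hl, hl'⟩ := this
        rw [prod_eq_zero (f := fun l => ∑ x ∈ range l, u l x) hl, mul_zero]
        rw [← hm l (hU hl)]
        apply sum_congr rfl
        intro n _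
        by_cases h2 : l ∈ T
        · have h3 : l ∉ T' := fun h => hl' ⟨h2, h⟩
          simp [hu, h2, h3]
        · have h3 : l ∈ T' := (mem_union.mp hl).resolve_left h2
          simp [hu, h2, h3]
    · have h4 : ∏ l ∈ T ∪ T', l ≤ z * z := by
        have h5 := prod_union_inter (s₁ := T) (s₂ := T') (f := fun l : ℕ => l)
        have h6 : 0 < ∏ l ∈ T ∩ T', l :=
          prod_pos fun l hl => (hP l (hQP T hT (mem_inter.mp hl).1)).pos
        have h7 := Nat.mul_le_mul (hQz T hT) (hQz T' hT')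
        nlinarith
      have h5 : ((∏ l ∈ T ∪ T', l : ℕ) : ℝ) ≤ z * z := by exact_mod_cast h4
      nlinarith
  calc (S.card : ℝ) * L ^ 2 = ∑ n ∈ S, (∑ T ∈ Q, ∏ l ∈ T, G l (x + n)) ^ 2 := by
        rw [sum_congr rfl (g := fun _ => L ^ 2)]
        · simp
        · intro n hn
          rw [hL]
          congr 1
          exact sum_congr rfl fun T hT => prod_congr rfl fun l hl => hG n hn l (hQP T hT hl)
    _ ≤ ∑ n ∈ range y, (∑ T ∈ Q, ∏ l ∈ T, G l (x + n)) ^ 2 :=
        sum_le_sum_of_subset_of_nonneg hS (fun _ _ _ => sq_nonneg _)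
    _ = ∑ T ∈ Q, ∑ T' ∈ Q, ∑ n ∈ range y, (∏ l ∈ T, G l (x + n)) * ∏ l ∈ T', G l (x + n) := by
        simp only [sq, sum_mul_sum]
        rw [sum_comm]
        exact sum_congr rfl fun T _ => sum_comm
    _ ≤ ∑ T ∈ Q, ∑ T' ∈ Q, ((if T = T' then y * ∏ l ∈ T, g l else 0) + 2 * (z : ℝ) ^ 2) :=
        sum_le_sum fun T hT => sum_le_sum fun T' hT' => key T hT T' hT'
    _ = y * L + Q.card * (Q.card * (2 * (z : ℝ) ^ 2)) := by
        simp only [sum_add_distrib, sum_const, nsmul_eq_mul, hL, mul_sum]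
        congr 1
        exact sum_congr rfl fun T hT => by rw [sum_ite_eq]; simp [hT]
    _ ≤ _ := by
        have h8 : (Q.card : ℝ) ≤ z := by exact_mod_cast hQc
        have h9 : (Q.card : ℝ) * (Q.card * (2 * (z : ℝ) ^ 2)) ≤ z * (z * (2 * (z : ℝ) ^ 2)) := by
          gcongr
        nlinarith

end Pool.Agent.H.MP_3aed06_nt
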