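import Pool.Agent.H.MP_3aed06_nt.A

set_option autoImplicit false

namespace Pool.Agent.H.MP_3aed06_nt
open Finset

lemma inj_sum {α β : Type} [DecidableEq β] (s : Finset α) (t : Finset β) (i : α → β)
    (h1 : ∀ a ∈ s, i a ∈ t) (h2 : Set.InjOn i s) (f : α → ℝ) (φ : β → ℝ) (h3 : ∀ b, 0 ≤ φ b)
    (h4 : ∀ a ∈ s, f a = φ (i a)) : ∑ a ∈ s, f a ≤ ∑ b ∈ t, φ b := by
  rw [sum_congr rfl h4, ← sum_image (f := φ) h2]
  exact sum_le_sum_of_subset_of_nonneg (image_subset_iff.mpr h1) (fun _ _ _ => h3 _)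

noncomputable def r (T : Finset ℕ) : ℝ := ∏ l ∈ T, (1 / (l : ℝ))

lemma r_nonneg (T : Finset ℕ) : 0 ≤ r T := prod_nonneg fun _ _ => by positivity

def Qs (P : Finset ℕ) (w : ℕ) : Finset (Finset ℕ) := P.powerset.filter (fun T => ∏ l ∈ T, l ≤ w)

def Pw (w : ℕ) : Finset ℕ := (range (w + 1)).filter Nat.Prime

lemma sum_sq_le (P : Finset ℕ) (hP : ∀ l ∈ P, 0 < l) : ∑ l ∈ P, 1 / (l : ℝ) ^ 2 ≤ 2 := by
  have h1 := sum_Ioo_inv_sq_le (α := ℝ) 0 (P.sup id + 1)
  simp only [Nat.cast_zero, zero_add, div_one] at h1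
  simp only [one_div]
  refine le_trans (sum_le_sum_of_subset_of_nonneg ?_ (fun _ _ _ => by positivity)) h1
  intro l hl
  have : id l ≤ P.sup id := le_sup hl
  exact mem_Ioo.mpr ⟨hP l hl, by simp only [id] at this; omega⟩

lemma prod_sq_le (P : Finset ℕ) (hP : ∀ l ∈ P, 0 < l) (c : ℝ) (hc : 0 ≤ c) :
    ∏ l ∈ P, (1 + c * (1 / (l : ℝ) ^ 2)) ≤ Real.exp (2 * c) := by
  calc ∏ l ∈ P, (1 + c * (1 / (l : ℝ) ^ 2)) ≤ ∏ l ∈ P, Real.exp (c * (1 / (l : ℝ) ^ 2)) :=
        prod_le_prod (fun _ _ => by positivity) (fun l _ => by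
          linarith [Real.add_one_le_exp (c * (1 / (l : ℝ) ^ 2))])
    _ = Real.exp (c * ∑ l ∈ P, 1 / (l : ℝ) ^ 2) := by rw [← Real.exp_sum, mul_sum]
    _ ≤ _ := by
        apply Real.exp_le_exp.mpr
        nlinarith [sum_sq_le P hP]

lemma H_le (w : ℕ) : ∑ n ∈ Ioc (0 : ℕ) w, 1 / ((n : ℕ) : ℝ) ≤ (∑ A ∈ Qs (Pw w) w, r A) * 2 := by
  choose a b hab ha using Nat.sq_mul_squarefree
  have h1 := inj_sum (Ioc 0 w) (Qs (Pw w) w ×ˢ Ioc 0 w) (fun n => ((a n).primeFactors, b n))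
    (fun n hn => by
      rw [mem_Ioc] at hn
      have h2 := hab n
      have h3 : 0 < b n := Nat.pos_of_ne_zero (fun h => by rw [h] at h2; simp at h2; omega)
      have h4 : 0 < a n := Nat.pos_of_ne_zero (ha n).ne_zero
      have h5 : a n ≤ w := by nlinarith [Nat.one_le_pow 2 _ h3]
      simp only [mem_product, Qs, mem_filter, mem_powerset, mem_Ioc,
        Nat.prod_primeFactors_of_squarefree (ha n)]
      refine ⟨⟨fun l hl => ?_, h5⟩, h3, by nlinarith⟩
      have := Nat.le_of_mem_primeFactors hl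
      exact mem_filter.mpr ⟨mem_range.mpr (by omega), Nat.prime_of_mem_primeFactors hl⟩)
    (fun n _ m _ e => by
      simp only [Prod.mk.injEq] at e
      have h2 : a n = a m := by
        rw [← Nat.prod_primeFactors_of_squarefree (ha n), e.1,
          Nat.prod_primeFactors_of_squarefree (ha m)]
      rw [← hab n, ← hab m, h2, e.2])
    (fun n => 1 / (n : ℝ)) (fun z => r z.1 * (1 / (z.2 : ℝ) ^ 2))
    (fun z => mul_nonneg (r_nonneg _) (by positivity))
    (fun n _ => by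
      have h2 : r (a n).primeFactors = 1 / (a n : ℝ) := by
        rw [r, prod_div_distrib, prod_const_one, ← Nat.cast_prod,
          Nat.prod_primeFactors_of_squarefree (ha n)]
      simp only [h2]
      conv_lhs => rw [← hab n]
      push_cast
      rw [one_div_mul_one_div, mul_comm])
  rw [sum_product] at h1
  dsimp only at h1
  rw [← sum_mul_sum] at h1
  refine h1.trans (mul_le_mul_of_nonneg_left (sum_sq_le _ (fun l hl => (mem_Ioc.mp hl).1))
    (sum_nonneg fun _ _ => r_nonneg _))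

lemma prod_sub_le {P A B : Finset ℕ} (hP : ∀ l ∈ P, 0 < l) (hA : A ⊆ P) (h : B ⊆ A) :
    ∏ l ∈ B, l ≤ ∏ l ∈ A, l :=
  prod_le_prod_of_subset_of_one_le' h (fun l hl _ => hP l (hA hl))

lemma split (P R : Finset ℕ) (hP : ∀ l ∈ P, 0 < l) (w : ℕ) :
    ∑ A ∈ Qs P w, r A ≤ (∑ A ∈ Qs (P \ R) w, r A) * ∏ l ∈ R, (1 + 1 / (l : ℝ)) := by
  have h1 := inj_sum (Qs P w) (Qs (P \ R) w ×ˢ R.powerset) (fun A => (A \ R, A ∩ R))
    (fun A hA => by
      simp only [Qs, mem_filter, mem_powerset, mem_product] at hA ⊢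
      exact ⟨⟨sdiff_subset_sdiff hA.1 (Subset.refl _),
        (prod_sub_le hP hA.1 sdiff_subset).trans hA.2⟩, inter_subset_right⟩)
    (fun A _ B _ e => by
      simp only [Prod.mk.injEq] at e
      rw [← sdiff_union_inter A R, e.1, e.2, sdiff_union_inter])
    r (fun z => r z.1 * r z.2) (fun z => mul_nonneg (r_nonneg _) (r_nonneg _))
    (fun A _ => by simp only [r]; rw [mul_comm, prod_inter_mul_prod_diff])
  rw [sum_product, ← sum_mul_sum] at h1
  rw [prod_one_add]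
  exact h1

lemma sq_le (P : Finset ℕ) (hP : ∀ l ∈ P, 0 < l) (w : ℕ) :
    (∑ A ∈ Qs P w, r A) ^ 2 ≤ Real.exp 2 * ∑ T ∈ Qs P (w * w), ∏ l ∈ T, (2 / (l : ℝ)) := by
  have h1 := inj_sum (Qs P w ×ˢ Qs P w)
    (P.powerset ×ˢ (Qs P (w * w)).sigma (fun T => T.powerset))
    (fun z => (z.1 ∩ z.2, (⟨(z.1 \ z.2) ∪ (z.2 \ z.1), z.1 \ z.2⟩ : Σ _ : Finset ℕ, Finset ℕ)))
    (fun z hz => by
      simp only [Qs, mem_filter, mem_powerset, mem_product, mem_sigma] at hz ⊢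
      refine ⟨inter_subset_left.trans hz.1.1, ⟨union_subset (sdiff_subset.trans hz.1.1)
        (sdiff_subset.trans hz.2.1), ?_⟩, subset_union_left⟩
      rw [prod_union disjoint_sdiff_sdiff]
      exact Nat.mul_le_mul ((prod_sub_le hP hz.1.1 sdiff_subset).trans hz.1.2)
        ((prod_sub_le hP hz.2.1 sdiff_subset).trans hz.2.2))
    (fun z _ z' _ e => by
      simp only [Prod.mk.injEq, Sigma.mk.injEq, heq_eq_eq] at e
      obtain ⟨e1, e2, e3⟩ := e
      apply Prod.ext <;> ext l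
      · have h1 := Finset.ext_iff.mp e1 l
        have h3 := Finset.ext_iff.mp e3 l
        simp only [mem_inter, mem_sdiff] at h1 h3
        tauto
      · have h1 := Finset.ext_iff.mp e1 l
        have h2 := Finset.ext_iff.mp e2 l
        have h3 := Finset.ext_iff.mp e3 l
        simp only [mem_inter, mem_sdiff, mem_union] at h1 h2 h3
        tauto)
    (fun z => r z.1 * r z.2) (fun z => (∏ l ∈ z.1, 1 * (1 / (l : ℝ) ^ 2)) * r z.2.1)
    (fun z => mul_nonneg (prod_nonneg fun _ _ => by positivity) (r_nonneg _))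
    (fun z _ => by
      simp only [r]
      rw [prod_union disjoint_sdiff_sdiff, ← prod_inter_mul_prod_diff z.1 z.2,
        ← prod_inter_mul_prod_diff z.2 z.1, inter_comm z.2 z.1]
      have : ∏ l ∈ z.1 ∩ z.2, 1 * (1 / (l : ℝ) ^ 2) =
          (∏ l ∈ z.1 ∩ z.2, 1 / (l : ℝ)) * ∏ l ∈ z.1 ∩ z.2, 1 / (l : ℝ) := by
        rw [← prod_mul_distrib]
        exact prod_congr rfl fun l _ => by ring
      rw [this]; ring)
  rw [sum_product, sum_product] at h1
  dsimp only at h1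
  rw [← sum_mul_sum, ← sum_mul_sum, ← prod_one_add, sum_sigma, ← sq] at h1
  have h2 := prod_sq_le P hP 1 (by norm_num)
  rw [mul_one] at h2
  have h3 : ∑ T ∈ Qs P (w * w), ∑ _U ∈ T.powerset, r T =
      ∑ T ∈ Qs P (w * w), ∏ l ∈ T, (2 / (l : ℝ)) := by
    apply sum_congr rfl
    intro T _
    rw [sum_const, card_powerset, nsmul_eq_mul, r, prod_div_distrib, prod_div_distrib]
    simp only [prod_const]
    push_cast
    ring
  rw [← h3]
  exact h1.trans (mul_le_mul_of_nonneg_right h2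
    (sum_nonneg fun _ _ => sum_nonneg fun _ _ => r_nonneg _))

noncomputable def sg (h : ℕ) : ℝ := ∏ l ∈ h.primeFactors, (1 + 1 / (l : ℝ))

lemma two_roots {l h : ℕ} (hl : l.Prime) (hh : ¬ l ∣ h) :
    ((range l).filter (fun n => l ∣ n ∨ l ∣ n + h)).card = 2 := by
  have h0 := Nat.mod_lt h hl.pos
  have h1 : h % l ≠ 0 := fun e => hh (Nat.dvd_of_mod_eq_zero e)
  have : (range l).filter (fun n => l ∣ n ∨ l ∣ n + h) = {0, l - h % l} := by
    ext n
    simp only [mem_filter, mem_range, mem_insert, mem_singleton]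
    have e : l ∣ n + h ↔ l ∣ n + h % l := by
      conv_lhs => rw [← Nat.mod_add_div h l, ← add_assoc]
      exact (Nat.dvd_add_iff_left (dvd_mul_right _ _)).symm
    rw [e]
    constructor
    · rintro ⟨h2, h3 | ⟨c, hc⟩⟩
      · exact Or.inl (Nat.eq_zero_of_dvd_of_lt h3 h2)
      · right
        have h4 : c = 1 := by
          rcases c with _ | _ | c
          · omega
          · rfl
          · nlinarith
        rw [h4] at hc
        omega
    · rintro (h2 | h2)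
      · exact ⟨by omega, Or.inl (h2 ▸ dvd_zero _)⟩
      · exact ⟨by omega, Or.inr ⟨1, by omega⟩⟩
  rw [this, card_pair (by omega)]

def Nh (x y h : ℕ) : ℕ := ((range y).filter (fun n => (x + n).Prime ∧ (x + n + h).Prime)).card

lemma twin (x y h w : ℕ) (hw : 0 < w) (H : ℝ) (hH : 0 < H) (hH' : H ≤ ∑ n ∈ Ioc (0 : ℕ) w, 1 / ((n : ℕ) : ℝ))
    (hh : 0 < h) :
    (Nh x y h : ℝ) ≤ (w + 1) + 2 * (w : ℝ) ^ 8 + y * (16 * Real.exp 2 * sg h ^ 2 / H ^ 2) := by
  set P := Pw w \ ({2, 3} ∪ h.primeFactors) with hP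
  have hP1 : ∀ l ∈ P, l.Prime ∧ l ≤ w ∧ 5 ≤ l ∧ ¬ l ∣ h := by
    intro l hl
    simp only [hP, Pw, mem_sdiff, mem_filter, mem_range, mem_union, mem_insert, mem_singleton,
      Nat.mem_primeFactors, not_or, not_and] at hl
    refine ⟨hl.1.2, by omega, hl.1.2.five_le_of_ne_two_of_ne_three hl.2.1.1 hl.2.1.2,
      fun e => hl.2.2 hl.1.2 e hh.ne'⟩
  set S := (range y).filter (fun n => w < x + n ∧ (x + n).Prime ∧ (x + n + h).Prime) with hS
  set L := ∑ T ∈ P.powerset.filter (fun T => ∏ l ∈ T, l ≤ w * w), ∏ l ∈ T, (2 / ((l : ℝ) - 2))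
    with hL
  have h5 : ∀ l ∈ P, (5 : ℝ) ≤ l := fun l hl => by exact_mod_cast (hP1 l hl).2.2.1
  have hcnt : ∀ l ∈ P, ∀ a b : ℝ, ∑ n ∈ range l, (if l ∣ n ∨ l ∣ n + h then a else b) =
      2 * a + (l - 2) * b := by
    intro l hl a b
    have h1 := two_roots (hP1 l hl).1 (hP1 l hl).2.2.2
    have h2 := card_filter_add_card_filter_not (s := range l) (fun n => l ∣ n ∨ l ∣ n + h)
    rw [h1, card_range] at h2
    rw [sum_ite, sum_const, sum_const, h1, nsmul_eq_mul, nsmul_eq_mul]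
    have h3 := congrArg (Nat.cast : ℕ → ℝ) h2
    push_cast at h3 ⊢
    rw [← h3]; ring
  have h1 := sieve P (fun l hl => (hP1 l hl).1)
    (fun l n => if l ∣ n ∨ l ∣ n + h then -1 else 2 / ((l : ℝ) - 2)) (fun l => 2 / ((l : ℝ) - 2))
    (fun l _ n => by
      have e : n + l + h = n + h + l := by ring
      simp only [e, Nat.dvd_add_self_right])
    (fun l hl n => by
      have := h5 l hl
      split_ifs
      · simp
      · rw [abs_of_nonneg (div_nonneg (by norm_num) (by linarith)), div_le_one (by linarith)]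
        linarith)
    (fun l hl => by
      have : (l : ℝ) - 2 ≠ 0 := by linarith [h5 l hl]
      rw [hcnt l hl]; field_simp; ring)
    (fun l hl => by
      have : (l : ℝ) - 2 ≠ 0 := by linarith [h5 l hl]
      simp only [ite_mul_ite]
      rw [hcnt l hl]; field_simp; ring)
    (w * w) x y S (filter_subset _ _)
    (fun n hn l hl => by
      obtain ⟨-, h2, h3, h4⟩ := mem_filter.mp hn
      obtain ⟨h6, h7, -, -⟩ := hP1 l hl
      rw [if_neg]
      rintro (e | e)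
      · have := (Nat.prime_dvd_prime_iff_eq h6 h3).mp e; omega
      · have := (Nat.prime_dvd_prime_iff_eq h6 h4).mp e; omega) L hL
  have hL1 : 1 ≤ L := by
    have := single_le_sum (f := fun T : Finset ℕ => ∏ l ∈ T, (2 / ((l : ℝ) - 2)))
      (s := P.powerset.filter (fun T => ∏ l ∈ T, l ≤ w * w)) (a := ∅)
      (fun T hT => prod_nonneg fun l hl => div_nonneg (by norm_num)
        (by linarith [h5 l (mem_powerset.mp (mem_filter.mp hT).1 hl)]))
      (by simp; nlinarith)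
    rw [prod_empty] at this
    exact this
  have hL2 : ∑ T ∈ Qs P (w * w), ∏ l ∈ T, (2 / (l : ℝ)) ≤ L := by
    apply sum_le_sum
    intro T hT
    apply prod_le_prod (fun _ _ => by positivity)
    intro l hl
    have := h5 l (mem_powerset.mp (mem_filter.mp hT).1 hl)
    exact div_le_div_of_nonneg_left (by norm_num) (by linarith) (by linarith)
  have h2 := sq_le P (fun l hl => (hP1 l hl).1.pos) w
  have h3 := split (Pw w) ({2, 3} ∪ h.primeFactors) (fun l hl => (mem_filter.mp hl).2.pos) w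
  have h4 := H_le w
  have hsg : 0 ≤ sg h := prod_nonneg fun _ _ => by positivity
  have h6 : ∏ l ∈ ({2, 3} ∪ h.primeFactors : Finset ℕ), (1 + 1 / (l : ℝ)) ≤ 2 * sg h := by
    have h7 := prod_union_inter (s₁ := ({2, 3} : Finset ℕ)) (s₂ := h.primeFactors)
      (f := fun l : ℕ => (1 + 1 / (l : ℝ)))
    have h8 : (1 : ℝ) ≤ ∏ l ∈ ({2, 3} ∩ h.primeFactors : Finset ℕ), (1 + 1 / (l : ℝ)) :=
      by simpa using (prod_le_prod (s := ({2, 3} ∩ h.primeFactors : Finset ℕ)) (f := fun _ => (1 : ℝ))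
        (g := fun l : ℕ => (1 + 1 / (l : ℝ))) (fun _ _ => zero_le_one) (fun l _ => by simp))
    have h9 : ∏ l ∈ ({2, 3} : Finset ℕ), (1 + 1 / (l : ℝ)) = 2 := by
      rw [prod_pair (by norm_num)]; norm_num
    have h10 : (0 : ℝ) ≤ ∏ l ∈ ({2, 3} ∪ h.primeFactors : Finset ℕ), (1 + 1 / (l : ℝ)) :=
      prod_nonneg fun _ _ => by positivity
    rw [h9] at h7
    unfold sg
    nlinarith
  rw [← hP] at h3
  set E := ∑ A ∈ Qs P w, r A
  have hE : 0 ≤ E := sum_nonneg fun _ _ => r_nonneg _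
  clear hL hcnt
  clear_value L E
  have h7 : H ≤ 4 * sg h * E := by nlinarith
  have h8 : H ^ 2 ≤ 16 * Real.exp 2 * sg h ^ 2 * L := by
    calc H ^ 2 ≤ (4 * sg h * E) ^ 2 := by gcongr
      _ = 16 * sg h ^ 2 * E ^ 2 := by ring
      _ ≤ 16 * sg h ^ 2 * (Real.exp 2 * L) := by
        gcongr
        exact h2.trans (by gcongr)
      _ = _ := by ring
  have h9 : 1 / L ≤ 16 * Real.exp 2 * sg h ^ 2 / H ^ 2 := by
    rw [div_le_div_iff₀ (by linarith) (by positivity)]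
    linarith
  have h10 : (S.card : ℝ) ≤ 2 * (w : ℝ) ^ 8 + y * (1 / L) := by
    apply le_of_mul_le_mul_right _ (by positivity : 0 < L ^ 2)
    have e : (2 * (w : ℝ) ^ 8 + y * (1 / L)) * L ^ 2 = 2 * (w : ℝ) ^ 8 * L ^ 2 + y * L := by
      field_simp
    have h11 : (1 : ℝ) ≤ L ^ 2 := one_le_pow₀ hL1
    have h12 : 2 * (w : ℝ) ^ 8 ≤ 2 * (w : ℝ) ^ 8 * L ^ 2 := le_mul_of_one_le_right (by positivity) h11
    rw [Nat.cast_mul] at h1
    have h13 : ((w : ℝ) * w) ^ 4 = (w : ℝ) ^ 8 := by ring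
    rw [h13] at h1
    rw [e]
    linarith
  have h11 : Nh x y h ≤ w + 1 + S.card := by
    have : (range y).filter (fun n => (x + n).Prime ∧ (x + n + h).Prime) ⊆ range (w + 1) ∪ S := by
      intro n hn
      simp only [hS, mem_union, mem_filter, mem_range] at hn ⊢
      by_cases h12 : w < x + n
      · exact Or.inr ⟨hn.1, h12, hn.2⟩
      · left; omega
    have h12 := (card_le_card this).trans (card_union_le _ _)
    rwa [card_range] at h12
  have h12 : (Nh x y h : ℝ) ≤ w + 1 + S.card := by exact_mod_cast h11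
  have h13 : (y : ℝ) * (1 / L) ≤ y * (16 * Real.exp 2 * sg h ^ 2 / H ^ 2) := by gcongr
  linarith

lemma sg_avg (Y : ℕ) : ∑ h ∈ Ioc 0 Y, sg h ^ 2 ≤ Y * Real.exp 6 := by
  have h1 : ∀ h ∈ Ioc 0 Y, sg h ^ 2 ≤
      ∑ T ∈ (Pw Y).powerset, if (∏ l ∈ T, l) ∣ h then ∏ l ∈ T, (3 / (l : ℝ)) else 0 := by
    intro h hh
    rw [mem_Ioc] at hh
    calc sg h ^ 2 = ∏ l ∈ h.primeFactors, (1 + 1 / (l : ℝ)) ^ 2 := by rw [sg, prod_pow]
      _ ≤ ∏ l ∈ h.primeFactors, (1 + 3 / (l : ℝ)) := by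
        apply prod_le_prod (fun _ _ => by positivity)
        intro l hl
        have h2 : (1 : ℝ) ≤ l := by exact_mod_cast (Nat.prime_of_mem_primeFactors hl).pos
        have h3 : 1 / (l : ℝ) ≤ 1 := by rwa [div_le_one (by linarith)]
        have h4 : 0 ≤ 1 / (l : ℝ) := by positivity
        have h5 : 3 / (l : ℝ) = 3 * (1 / l) := by ring
        nlinarith
      _ = ∑ T ∈ h.primeFactors.powerset, ∏ l ∈ T, (3 / (l : ℝ)) := prod_one_add _
      _ ≤ _ := by
        rw [← sum_filter]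
        apply sum_le_sum_of_subset_of_nonneg _ (fun _ _ _ => prod_nonneg fun _ _ => by positivity)
        intro T hT
        rw [mem_powerset] at hT
        refine mem_filter.mpr ⟨mem_powerset.mpr fun l hl => ?_,
          (prod_dvd_prod_of_subset _ _ _ hT).trans (Nat.prod_primeFactors_dvd h)⟩
        have := Nat.le_of_mem_primeFactors (hT hl)
        exact mem_filter.mpr ⟨mem_range.mpr (by omega), Nat.prime_of_mem_primeFactors (hT hl)⟩
  refine (sum_le_sum h1).trans ?_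
  rw [sum_comm]
  have h2 := prod_sq_le (Pw Y) (fun l hl => (mem_filter.mp hl).2.pos) 3 (by norm_num)
  rw [prod_one_add, show (2 : ℝ) * 3 = 6 by norm_num] at h2
  refine le_trans ?_ (mul_le_mul_of_nonneg_left h2 (by positivity))
  rw [mul_sum]
  apply sum_le_sum
  intro T _
  rw [← sum_filter, sum_const, Nat.Ioc_filter_dvd_card_eq_div, nsmul_eq_mul]
  have h3 : ((Y / ∏ l ∈ T, l : ℕ) : ℝ) ≤ Y / ((∏ l ∈ T, l : ℕ) : ℝ) := Nat.cast_div_le
  refine (mul_le_mul_of_nonneg_right h3 (prod_nonneg fun _ _ => by positivity)).trans (le_of_eq ?_)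
  push_cast
  rw [div_eq_mul_inv, mul_assoc, ← prod_inv_distrib, ← prod_mul_distrib]
  congr 1
  exact prod_congr rfl fun l _ => by ring

lemma H_ge (m : ℕ) : ((m : ℝ) + 1) / 2 ≤ ∑ n ∈ Ioc (0 : ℕ) (2 ^ m), 1 / ((n : ℕ) : ℝ) := by
  induction m with
  | zero => norm_num
  | succ m ih =>
    have h0 : 2 ^ m ≤ 2 ^ (m + 1) := Nat.pow_le_pow_right (by norm_num) (by omega)
    rw [← sum_Ioc_consecutive _ (Nat.zero_le (2 ^ m)) h0]
    have h1 := card_nsmul_le_sum (Ioc (2 ^ m) (2 ^ (m + 1))) (fun n : ℕ => 1 / (n : ℝ))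
      (1 / ((2 ^ (m + 1) : ℕ) : ℝ)) (fun n hn => by
        rw [mem_Ioc] at hn
        have h2 : 0 < n := lt_of_le_of_lt (Nat.zero_le _) hn.1
        exact one_div_le_one_div_of_le (by exact_mod_cast h2) (by exact_mod_cast hn.2))
    have h2 : 2 ^ (m + 1) - 2 ^ m = 2 ^ m := by rw [pow_succ]; omega
    rw [Nat.card_Ioc, h2, nsmul_eq_mul] at h1
    have h3 : ((2 ^ m : ℕ) : ℝ) * (1 / ((2 ^ (m + 1) : ℕ) : ℝ)) = 1 / 2 := by
      push_cast; rw [pow_succ]; field_simp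
    push_cast at *
    linarith

noncomputable def C0 : ℝ := 1024 + 16384 * Real.exp 2 * Real.exp 6

lemma pairs (x Y t : ℕ) :
    (t : ℝ) ^ 2 * ∑ h ∈ Ioc 0 Y, (Nh x (2 ^ t) h : ℝ) ≤ C0 * Y * 2 ^ t := by
  set m := t / 16 with hm
  have hm1 : (0 : ℝ) < ((m : ℝ) + 1) / 2 := by positivity
  have h1 := sum_le_sum (s := Ioc 0 Y) fun h hh =>
    twin x (2 ^ t) h (2 ^ m) (by positivity) _ hm1 (H_ge m) (mem_Ioc.mp hh).1
  have h2 := sg_avg Y
  have e : ∀ h, ((2 ^ t : ℕ) : ℝ) * (16 * Real.exp 2 * sg h ^ 2 / (((m : ℝ) + 1) / 2) ^ 2) =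
      (2 ^ t * (64 * Real.exp 2) / ((m : ℝ) + 1) ^ 2) * sg h ^ 2 := by
    intro h; push_cast; field_simp; ring
  simp only [e, sum_add_distrib, sum_const, Nat.card_Ioc, nsmul_eq_mul, ← mul_sum] at h1
  have h3 : (t : ℝ) ≤ 16 * (m + 1) := by exact_mod_cast (by omega : t ≤ 16 * (m + 1))
  have h4 : (m : ℝ) + 1 ≤ 2 ^ m := by exact_mod_cast Nat.lt_two_pow_self
  have h5 : ((2 : ℝ) ^ m) ^ 16 ≤ 2 ^ t := by
    rw [← pow_mul]; exact pow_le_pow_right₀ (by norm_num) (by omega)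
  have h6 : (1 : ℝ) ≤ 2 ^ m := one_le_pow₀ (by norm_num)
  push_cast at h1
  set W : ℝ := 2 ^ m
  have h7 : W ≤ W ^ 8 := le_self_pow₀ h6 (by norm_num)
  have h8 : W ^ 2 ≤ W ^ 8 := pow_le_pow_right₀ h6 (by norm_num)
  have h9 : (t : ℝ) ^ 2 ≤ 256 * ((m : ℝ) + 1) ^ 2 := by nlinarith [Nat.cast_nonneg (α := ℝ) t]
  have h10 : ((m : ℝ) + 1) ^ 2 ≤ W ^ 8 := le_trans (by gcongr) h8
  have h11 : (t : ℝ) ^ 2 * (W + 1 + 2 * W ^ 8) ≤ 1024 * 2 ^ t := by
    calc (t : ℝ) ^ 2 * (W + 1 + 2 * W ^ 8) ≤ (256 * W ^ 8) * (4 * W ^ 8) := by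
          apply mul_le_mul (by linarith) (by linarith) (by positivity) (by positivity)
      _ = 1024 * W ^ 16 := by ring
      _ ≤ _ := by linarith
  have h12 : (t : ℝ) ^ 2 * (2 ^ t * (64 * Real.exp 2) / ((m : ℝ) + 1) ^ 2) ≤
      16384 * Real.exp 2 * 2 ^ t := by
    rw [← mul_div_assoc, div_le_iff₀ (by positivity)]
    have : (0 : ℝ) ≤ 2 ^ t * (64 * Real.exp 2) := by positivity
    nlinarith
  calc (t : ℝ) ^ 2 * ∑ h ∈ Ioc 0 Y, (Nh x (2 ^ t) h : ℝ)
      ≤ (t : ℝ) ^ 2 * (Y * (W + 1 + 2 * W ^ 8) +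
        (2 ^ t * (64 * Real.exp 2) / ((m : ℝ) + 1) ^ 2) * (Y * Real.exp 6)) := by
        gcongr
        refine h1.trans ?_
        simp only [Nat.sub_zero]
        have : (2 ^ t * (64 * Real.exp 2) / ((m : ℝ) + 1) ^ 2) * ∑ h ∈ Ioc 0 Y, sg h ^ 2 ≤
          (2 ^ t * (64 * Real.exp 2) / ((m : ℝ) + 1) ^ 2) * (Y * Real.exp 6) := by gcongr
        linarith
    _ = Y * ((t : ℝ) ^ 2 * (W + 1 + 2 * W ^ 8)) +
        ((t : ℝ) ^ 2 * (2 ^ t * (64 * Real.exp 2) / ((m : ℝ) + 1) ^ 2)) * (Y * Real.exp 6) := by ring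
    _ ≤ Y * (1024 * 2 ^ t) + (16384 * Real.exp 2 * 2 ^ t) * (Y * Real.exp 6) := by gcongr
    _ = _ := by rw [C0]; ring

end Pool.Agent.H.MP_3aed06_nt
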