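import Pool.Agent.H.MP_3aed06_nt.B

set_option autoImplicit false

namespace Pool.Agent.H.MP_3aed06_nt
open Finset

def nd (s : Finset ℕ) (i p : ℕ) : Finset ℕ := s.filter (fun q => q / 2 ^ i = p / 2 ^ i)

noncomputable def ac (s : Finset ℕ) (i p : ℕ) : ℝ := (nd s i p).card

noncomputable def uu (s : Finset ℕ) (i p : ℕ) : ℝ := i * ac s i p / 2 ^ i

noncomputable def dl (s : Finset ℕ) (i p : ℕ) : ℝ := (ac s i p - 1) / 2 ^ i

lemma ac_pos {s : Finset ℕ} (i : ℕ) {p : ℕ} (hp : p ∈ s) : 1 ≤ ac s i p := by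
  have : 0 < (nd s i p).card := card_pos.mpr ⟨p, mem_filter.mpr ⟨hp, rfl⟩⟩
  unfold ac
  exact_mod_cast this

lemma dl_nonneg {s : Finset ℕ} (i : ℕ) {p : ℕ} (hp : p ∈ s) : 0 ≤ dl s i p :=
  div_nonneg (by linarith [ac_pos i hp]) (by positivity)

lemma div_up {i k p q : ℕ} (hik : i ≤ k) (h : q / 2 ^ i = p / 2 ^ i) : q / 2 ^ k = p / 2 ^ k := by
  obtain ⟨d, rfl⟩ := Nat.exists_eq_add_of_le hik
  rw [pow_add, ← Nat.div_div_eq_div_mul, ← Nat.div_div_eq_div_mul, h]

lemma ac_eq (s : Finset ℕ) {i p q : ℕ} (h : q / 2 ^ i = p / 2 ^ i) : ac s i q = ac s i p := by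
  simp only [ac, nd, h]

lemma uu_eq (s : Finset ℕ) {i p q : ℕ} (h : q / 2 ^ i = p / 2 ^ i) : uu s i q = uu s i p := by
  simp only [uu, ac_eq s h]

lemma C0_pos : 0 < C0 := by unfold C0; positivity

lemma node (s : Finset ℕ) (hs : ∀ p ∈ s, p.Prime) (t i p0 : ℕ) (hi : i ≤ t) :
    (t : ℝ) ^ 2 * ∑ p ∈ nd s t p0, (ac s i p - 1) ≤ 2 * C0 * 2 ^ i * 2 ^ t := by
  set B := nd s t p0 with hB
  set X : ℝ := ∑ p ∈ B, ∑ q ∈ B, if q / 2 ^ i = p / 2 ^ i ∧ p < q then 1 else 0 with hX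
  have hX' : ∑ p ∈ B, ∑ q ∈ B, (if q / 2 ^ i = p / 2 ^ i ∧ q < p then (1 : ℝ) else 0) = X := by
    rw [hX, sum_comm]
    simp only [eq_comm]
  have h1 : ∀ p ∈ B, ac s i p - 1 ≤ (∑ q ∈ B, if q / 2 ^ i = p / 2 ^ i ∧ p < q then 1 else 0) +
      ∑ q ∈ B, if q / 2 ^ i = p / 2 ^ i ∧ q < p then (1 : ℝ) else 0 := by
    intro p hp
    rw [sum_boole, sum_boole, ac, sub_le_iff_le_add]
    have h2 : nd s i p ⊆ (B.filter (fun q => q / 2 ^ i = p / 2 ^ i ∧ p < q) ∪
        B.filter (fun q => q / 2 ^ i = p / 2 ^ i ∧ q < p)) ∪ {p} := by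
      intro q hq
      obtain ⟨h3, h4⟩ := mem_filter.mp hq
      have h5 : q ∈ B := mem_filter.mpr ⟨h3, (div_up hi h4).trans (mem_filter.mp hp).2⟩
      simp only [mem_union, mem_filter, mem_singleton, h5, h4, true_and]
      omega
    have h3 := (card_le_card h2).trans ((card_union_le _ _).trans
      (Nat.add_le_add_right (card_union_le _ _) _))
    rw [card_singleton] at h3
    exact_mod_cast h3
  have h2 : X ≤ ∑ h ∈ Ioc 0 (2 ^ i), (Nh (2 ^ t * (p0 / 2 ^ t)) (2 ^ t) h : ℝ) := by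
    rw [hX, ← sum_product', sum_boole]
    have h3 : ((B ×ˢ B).filter (fun z => z.2 / 2 ^ i = z.1 / 2 ^ i ∧ z.1 < z.2)).card ≤
        ((Ioc 0 (2 ^ i)).sigma (fun h => (range (2 ^ t)).filter (fun n =>
          (2 ^ t * (p0 / 2 ^ t) + n).Prime ∧ (2 ^ t * (p0 / 2 ^ t) + n + h).Prime))).card := by
      have hm : ∀ p ∈ B, 2 ^ t * (p0 / 2 ^ t) + p % 2 ^ t = p := fun p hp => by
        rw [← (mem_filter.mp hp).2]; exact Nat.div_add_mod _ _
      apply card_le_card_of_injOn (fun z => (⟨z.2 - z.1, z.1 % 2 ^ t⟩ : Σ _ : ℕ, ℕ))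
      · intro z hz
        simp only [coe_filter, mem_product, Set.mem_setOf_eq] at hz
        obtain ⟨⟨h4, h5⟩, h6, h7⟩ := hz
        have h8 := Nat.div_add_mod z.1 (2 ^ i)
        have h9 := Nat.div_add_mod z.2 (2 ^ i)
        have h10 := Nat.mod_lt z.2 (Nat.two_pow_pos i)
        rw [h6] at h9
        simp only [mem_coe, mem_sigma, mem_Ioc, mem_filter, mem_range, hm _ h4]
        refine ⟨⟨by omega, by omega⟩, Nat.mod_lt _ (Nat.two_pow_pos t), hs _ (mem_filter.mp h4).1, ?_⟩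
        rw [Nat.add_sub_cancel' h7.le]
        exact hs _ (mem_filter.mp h5).1
      · intro z hz z' hz' e
        simp only [coe_filter, mem_product, Set.mem_setOf_eq] at hz hz'
        simp only [Sigma.mk.injEq, heq_eq_eq] at e
        have h4 := hm _ hz.1.1
        have h5 := hm _ hz'.1.1
        have h6 := hz.2.2
        have h7 := hz'.2.2
        apply Prod.ext <;> omega
    rw [card_sigma] at h3
    unfold Nh
    exact_mod_cast h3
  have h3 := sum_le_sum h1
  rw [sum_add_distrib, hX', ← hX] at h3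
  have h4 := pairs (2 ^ t * (p0 / 2 ^ t)) (2 ^ i) t
  push_cast at h4
  clear_value X
  nlinarith [sq_nonneg (t : ℝ)]

lemma uu_le (s : Finset ℕ) (hs : ∀ p ∈ s, p.Prime) (t p : ℕ) : uu s t p ≤ 2 * C0 + 1 := by
  have h1 := node s hs t t p le_rfl
  rw [sum_congr rfl (fun q hq => by rw [ac_eq s (mem_filter.mp hq).2]), sum_const, nsmul_eq_mul] at h1
  have h2 : (t : ℝ) ≤ 2 ^ t := by exact_mod_cast Nat.lt_two_pow_self.le
  have h3 : (t : ℝ) * ac s t p = uu s t p * 2 ^ t := by unfold uu; field_simp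
  have h4 : (0 : ℝ) < 2 ^ t := by positivity
  have hC := C0_pos
  change (t : ℝ) ^ 2 * (ac s t p * (ac s t p - 1)) ≤ _ at h1
  by_contra h5
  push Not at h5
  set u := uu s t p
  have h6 : (t : ℝ) ^ 2 * (ac s t p * (ac s t p - 1)) = (u * 2 ^ t) * (u * 2 ^ t - t) := by
    rw [← h3]; ring
  rw [h6] at h1
  have h7 : (u * 2 ^ t) * ((u - 1) * 2 ^ t) ≤ (u * 2 ^ t) * (u * 2 ^ t - t) :=
    mul_le_mul_of_nonneg_left (by linarith) (by nlinarith)
  have h8 : 2 * C0 < u * (u - 1) := by nlinarith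
  nlinarith [mul_pos h4 h4]

lemma fiber_le {α β : Type} [DecidableEq β] (s : Finset α) (φ : α → β) (F : α → ℝ) (c : ℝ)
    (h : ∀ p0 ∈ s, ∑ p ∈ s.filter (fun p => φ p = φ p0), F p ≤
      c * (s.filter (fun p => φ p = φ p0)).card) : ∑ p ∈ s, F p ≤ c * s.card := by
  rw [← sum_fiberwise_of_maps_to (fun p hp => mem_image_of_mem φ hp) F,
    card_eq_sum_card_image φ s]
  push_cast
  rw [mul_sum]
  apply sum_le_sum
  intro z hz
  obtain ⟨p0, hp0, rfl⟩ := mem_image.mp hz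
  exact h p0 hp0

lemma harm (x k : ℕ) : ∑ i ∈ Ioc (x / 2 ^ k) x, 1 / ((i : ℕ) : ℝ) ≤ k := by
  induction k with
  | zero => simp
  | succ k ih =>
    set y := x / 2 ^ k with hy
    have e : x / 2 ^ (k + 1) = y / 2 := by rw [pow_succ, ← Nat.div_div_eq_div_mul]
    rw [e, ← sum_Ioc_consecutive _ (Nat.div_le_self y 2) (Nat.div_le_self x _)]
    have h1 := sum_le_card_nsmul (Ioc (y / 2) y) (fun i : ℕ => 1 / (i : ℝ))
      (1 / ((y / 2 + 1 : ℕ) : ℝ)) (fun i hi => one_div_le_one_div_of_le (by positivity)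
        (by exact_mod_cast (mem_Ioc.mp hi).1))
    rw [Nat.card_Ioc, nsmul_eq_mul, mul_one_div] at h1
    have h2 : ((y - y / 2 : ℕ) : ℝ) / ((y / 2 + 1 : ℕ) : ℝ) ≤ 1 := by
      rw [div_le_one (by positivity)]
      clear e hy
      clear_value y
      exact Nat.cast_le.mpr (by omega)
    push_cast at *
    linarith

lemma layer (s : Finset ℕ) (hs : ∀ p ∈ s, p.Prime) (N k : ℕ) (t : ℝ) (ht : 0 < t) :
    ∑ p ∈ s, ∑ i ∈ Ioc 0 N, (if t < uu s i p ∧ uu s i p ≤ 2 * t then dl s i p else 0) ≤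
      (2 * C0 / (2 ^ k * t) + 2 * t * k) * s.card := by
  classical
  set τ : ℕ → ℕ := fun p => Nat.findGreatest (fun i => t < uu s i p) N with hτ
  have hC := C0_pos
  have h1 : ∀ p ∈ s, ∑ i ∈ Ioc 0 N, (if t < uu s i p ∧ uu s i p ≤ 2 * t then dl s i p else 0) ≤
      (if t < uu s (τ p) p then ∑ i ∈ Ioc 0 (τ p / 2 ^ k), dl s i p else 0) + 2 * t * k := by
    intro p hp
    by_cases h2 : t < uu s (τ p) p
    · rw [if_pos h2, ← sum_filter, ← sum_filter_add_sum_filter_not _ (fun i => i ≤ τ p / 2 ^ k)]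
      apply add_le_add
      · apply sum_le_sum_of_subset_of_nonneg _ (fun _ _ _ => dl_nonneg _ hp)
        intro i hi
        simp only [mem_filter, mem_Ioc] at hi ⊢
        exact ⟨hi.1.1.1, hi.2⟩
      · refine le_trans ?_ (mul_le_mul_of_nonneg_left (harm (τ p) k) (by positivity))
        rw [mul_sum]
        refine le_trans (sum_le_sum (g := fun i : ℕ => 2 * t * (1 / (i : ℝ))) ?_)
          (sum_le_sum_of_subset_of_nonneg ?_ (fun _ _ _ => by positivity))
        · intro i hi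
          simp only [mem_filter, mem_Ioc] at hi
          have h3 : (0 : ℝ) < i := by exact_mod_cast hi.1.1.1
          have h4 := hi.1.2.2
          rw [mul_one_div, le_div_iff₀ h3]
          refine le_trans ?_ h4
          unfold dl uu
          rw [div_mul_eq_mul_div]
          apply div_le_div_of_nonneg_right _ (by positivity)
          nlinarith
        · intro i hi
          simp only [mem_filter, mem_Ioc] at hi ⊢
          exact ⟨by omega, Nat.le_findGreatest hi.1.1.2 hi.1.2.1⟩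
    · rw [if_neg h2, sum_eq_zero]
      · positivity
      · intro i hi
        rw [if_neg]
        intro h3
        exact h2 (Nat.findGreatest_spec (P := fun i => t < uu s i p) (mem_Ioc.mp hi).2 h3.1)
  have h2 := fiber_le s (fun p => (τ p, p / 2 ^ τ p))
    (fun p => if t < uu s (τ p) p then ∑ i ∈ Ioc 0 (τ p / 2 ^ k), dl s i p else 0)
    (2 * C0 / (2 ^ k * t)) (fun p0 hp0 => by
      have h3 : ∀ p ∈ s.filter (fun p => (τ p, p / 2 ^ τ p) = (τ p0, p0 / 2 ^ τ p0)),
          τ p = τ p0 ∧ p / 2 ^ τ p0 = p0 / 2 ^ τ p0 := by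
        intro p hp
        have h4 := (mem_filter.mp hp).2
        simp only [Prod.mk.injEq] at h4
        exact ⟨h4.1, by rw [← h4.2, h4.1]⟩
      rw [sum_congr rfl (fun p hp => by rw [(h3 p hp).1, uu_eq s (h3 p hp).2])]
      by_cases h4 : t < uu s (τ p0) p0
      · have h5 : s.filter (fun p => (τ p, p / 2 ^ τ p) = (τ p0, p0 / 2 ^ τ p0)) =
            nd s (τ p0) p0 := by
          ext p
          refine ⟨fun hp => mem_filter.mpr ⟨(mem_filter.mp hp).1, (h3 p hp).2⟩, fun hp => ?_⟩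
          obtain ⟨h6, h7⟩ := mem_filter.mp hp
          have h8 : τ p = τ p0 := by
            apply Nat.findGreatest_eq_iff.mpr
            refine ⟨Nat.findGreatest_le N, fun _ => by rw [uu_eq s h7]; exact h4, fun n h9 h10 => ?_⟩
            rw [uu_eq s (div_up h9.le h7)]
            exact Nat.findGreatest_is_greatest h9 h10
          exact mem_filter.mpr ⟨h6, by rw [h8, h7]⟩
        simp only [if_pos h4, h5]
        set T := τ p0
        have hT : (0 : ℝ) < T := by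
          rcases Nat.eq_zero_or_pos T with h6 | h6
          · rw [h6] at h4; simp [uu] at h4; linarith
          · exact_mod_cast h6
        rw [sum_comm]
        have h6 := sum_le_card_nsmul (Ioc 0 (T / 2 ^ k)) (fun i => ∑ p ∈ nd s T p0, dl s i p)
          (2 * C0 * 2 ^ T / (T : ℝ) ^ 2) (fun i hi => by
            have h7 := node s hs T i p0 ((mem_Ioc.mp hi).2.trans (Nat.div_le_self _ _))
            simp only [dl]
            rw [← sum_div, div_le_div_iff₀ (by positivity) (by positivity)]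
            linarith)
        rw [Nat.card_Ioc, nsmul_eq_mul, Nat.sub_zero] at h6
        have h7 : ((T / 2 ^ k : ℕ) : ℝ) ≤ T / 2 ^ k := by
          have := Nat.cast_div_le (α := ℝ) (m := T) (n := 2 ^ k)
          push_cast at this
          exact this
        refine h6.trans ((mul_le_mul_of_nonneg_right h7 (by positivity)).trans ?_)
        have h8 : t * 2 ^ T ≤ T * ac s T p0 := by
          unfold uu at h4
          rw [lt_div_iff₀ (by positivity)] at h4
          exact h4.le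
        change _ ≤ _ * ac s T p0
        rw [div_mul_div_comm, div_mul_eq_mul_div, div_le_div_iff₀ (by positivity) (by positivity)]
        have h9 := mul_le_mul_of_nonneg_left h8 (by positivity : 0 ≤ 2 * C0 * 2 ^ k * (T : ℝ))
        nlinarith
      · simp only [if_neg h4, sum_const_zero]
        positivity)
  refine (sum_le_sum h1).trans ?_
  rw [sum_add_distrib, sum_const, nsmul_eq_mul]
  linarith

lemma geo (J : ℕ) : ∑ j ∈ range J, ((j : ℝ) + 1) / 2 ^ j = 4 - (2 * J + 4) / 2 ^ J := by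
  induction J with
  | zero => norm_num
  | succ J ih => rw [sum_range_succ, ih]; push_cast; field_simp; ring

lemma geo2 (N : ℕ) : ∑ i ∈ Ioc 0 N, (1 : ℝ) / 2 ^ i = 1 - 1 / 2 ^ N := by
  induction N with
  | zero => norm_num
  | succ N ih => rw [sum_Ioc_succ_top (Nat.zero_le N), ih]; field_simp; ring

lemma lay (V u : ℝ) (hu : u ≤ V) (J : ℕ) :
    u ≤ V / 2 ^ J ∨ ∃ j < J, V / 2 ^ (j + 1) < u ∧ u ≤ 2 * (V / 2 ^ (j + 1)) := by
  induction J with
  | zero => left; simpa using hu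
  | succ J ih =>
    rcases ih with h | ⟨j, h1, h2⟩
    · by_cases h3 : u ≤ V / 2 ^ (J + 1)
      · exact Or.inl h3
      · refine Or.inr ⟨J, by omega, not_le.mp h3, h.trans (le_of_eq ?_)⟩
        field_simp; ring
    · exact Or.inr ⟨j, by omega, h2⟩

lemma dl_sum (s : Finset ℕ) (hs : ∀ p ∈ s, p.Prime) (N : ℕ) :
    ∑ p ∈ s, ∑ i ∈ Ioc 0 N, dl s i p ≤ 9 * (2 * C0 + 1) * s.card := by
  have hC := C0_pos
  set V := 2 * C0 + 1 with hV
  have hV0 : 0 < V := by positivity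
  have h1 : ∀ p ∈ s, ∀ i ∈ Ioc 0 N, dl s i p ≤ V / 2 ^ N + ∑ j ∈ range N,
      (if V / 2 ^ (j + 1) < uu s i p ∧ uu s i p ≤ 2 * (V / 2 ^ (j + 1)) then dl s i p else 0) := by
    intro p hp i hi
    have h0 : ∀ j ∈ range N, 0 ≤ (if V / 2 ^ (j + 1) < uu s i p ∧
        uu s i p ≤ 2 * (V / 2 ^ (j + 1)) then dl s i p else 0) := fun j _ => by
      split_ifs
      · exact dl_nonneg _ hp
      · exact le_rfl
    rcases lay V _ (uu_le s hs i p) N with h | ⟨j, h2, h3⟩
    · have h2 : dl s i p ≤ uu s i p := by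
        have h3 : (1 : ℝ) ≤ i := by exact_mod_cast (mem_Ioc.mp hi).1
        have h4 := ac_pos i hp
        unfold dl uu
        gcongr
        nlinarith
      linarith [sum_nonneg h0]
    · have h4 := single_le_sum h0 (mem_range.mpr h2)
      rw [if_pos h3] at h4
      have : 0 ≤ V / 2 ^ N := by positivity
      linarith
  refine (sum_le_sum fun p hp => sum_le_sum (h1 p hp)).trans ?_
  simp only [sum_add_distrib, sum_const, Nat.card_Ioc, nsmul_eq_mul, Nat.sub_zero]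
  rw [sum_congr rfl (fun p _ => sum_comm), sum_comm]
  have h2 : ∀ j ∈ range N, ∑ p ∈ s, ∑ i ∈ Ioc 0 N, (if V / 2 ^ (j + 1) < uu s i p ∧
      uu s i p ≤ 2 * (V / 2 ^ (j + 1)) then dl s i p else 0) ≤
      (2 * V * s.card) * (((j : ℝ) + 1) / 2 ^ j) := by
    intro j _
    refine (layer s hs N (2 * j) _ (by positivity)).trans ?_
    have e1 : 2 * C0 / (2 ^ (2 * j) * (V / 2 ^ (j + 1))) = (4 * C0 / V) / 2 ^ j := by
      rw [two_mul j, pow_add]; field_simp; ring
    have e2 : 2 * (V / 2 ^ (j + 1)) * ((2 * j : ℕ) : ℝ) = 2 * V * j / 2 ^ j := by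
      push_cast; field_simp; ring
    have h3 : 4 * C0 / V ≤ 2 * V := by
      rw [div_le_iff₀ hV0]; nlinarith
    rw [e1, e2, ← add_div, mul_comm (2 * V * s.card), ← mul_assoc, div_mul_eq_mul_div _ _ (2 * V)]
    gcongr
    linarith
  have h3 := sum_le_sum h2
  rw [← mul_sum, geo] at h3
  have h4 : (N : ℝ) * (V / 2 ^ N) ≤ V := by
    have : (N : ℝ) ≤ 2 ^ N := by exact_mod_cast Nat.lt_two_pow_self.le
    rw [← mul_div_assoc, div_le_iff₀ (by positivity)]
    nlinarith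
  have h5 : (0 : ℝ) ≤ (2 * V * s.card) * ((2 * N + 4) / 2 ^ N) := by positivity
  have h6 := mul_le_mul_of_nonneg_left h4 (Nat.cast_nonneg (α := ℝ) s.card)
  nlinarith

lemma adj (s : Finset ℕ) (i m : ℕ) :
    ∑ q ∈ s, (if q / 2 ^ i = m then 1 / ac s i q else 0) ≤ 1 := by
  rw [← sum_filter, sum_congr rfl (g := fun _ => 1 / ((s.filter (fun q => q / 2 ^ i = m)).card : ℝ))
    (fun q hq => by simp only [ac, nd, (mem_filter.mp hq).2]), sum_const, nsmul_eq_mul, mul_one_div]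
  exact div_self_le_one _

lemma adj2 (s : Finset ℕ) (i e : ℕ) :
    ∑ p ∈ s, ∑ q ∈ s, (if q / 2 ^ i = p / 2 ^ i + e then (1 : ℝ) else 0) ≤ ∑ p ∈ s, ac s i p := by
  have h1 : ∀ p ∈ s, ∀ q ∈ s, (if q / 2 ^ i = p / 2 ^ i + e then (1 : ℝ) else 0) ≤
      ac s i p / 2 * (if q / 2 ^ i = p / 2 ^ i + e then 1 / ac s i q else 0) +
      ac s i q / 2 * (if p / 2 ^ i = q / 2 ^ i - e then 1 / ac s i p else 0) := by
    intro p hp q hq
    have h2 := ac_pos i hp
    have h3 := ac_pos i hq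
    by_cases h : q / 2 ^ i = p / 2 ^ i + e
    · rw [if_pos h, if_pos h, if_pos (by rw [h, Nat.add_sub_cancel])]
      have : ac s i p / 2 * (1 / ac s i q) + ac s i q / 2 * (1 / ac s i p) =
          1 + (ac s i p - ac s i q) ^ 2 / (2 * ac s i p * ac s i q) := by
        field_simp; ring
      rw [this]
      have : 0 ≤ (ac s i p - ac s i q) ^ 2 / (2 * ac s i p * ac s i q) := by positivity
      linarith
    · rw [if_neg h, if_neg h]
      split_ifs <;> positivity
  refine (sum_le_sum fun p hp => sum_le_sum (h1 p hp)).trans ?_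
  simp only [sum_add_distrib]
  rw [sum_comm (f := fun p q => ac s i q / 2 * (if p / 2 ^ i = q / 2 ^ i - e then 1 / ac s i p else 0)),
    ← sum_add_distrib]
  apply sum_le_sum
  intro p hp
  have h2 := ac_pos i hp
  rw [← mul_sum, ← mul_sum]
  nlinarith [adj s i (p / 2 ^ i + e), adj s i (p / 2 ^ i - e)]

theorem main : ∃ c : ℝ, ∀ s : Finset ℕ, s.Nonempty → (∀ p ∈ s, p.Prime) →
    ∑ p ∈ s, ∑ q ∈ s.filter (fun q => p < q), 1 / ((q : ℝ) - p) < c * s.card := by
  refine ⟨4 * (9 * (2 * C0 + 1) + 1) + 1, fun s hne hs => ?_⟩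
  set N := s.sup id + 1
  have h1 : ∀ p ∈ s, ∑ q ∈ s.filter (fun q => p < q), 1 / ((q : ℝ) - p) ≤
      ∑ q ∈ s, ∑ i ∈ Ioc 0 N, 2 / 2 ^ i * ((if q / 2 ^ i = p / 2 ^ i + 0 then (1 : ℝ) else 0) +
        (if q / 2 ^ i = p / 2 ^ i + 1 then (1 : ℝ) else 0)) := by
    intro p _
    have h0 : ∀ q i : ℕ, (0 : ℝ) ≤ 2 / 2 ^ i * ((if q / 2 ^ i = p / 2 ^ i + 0 then (1 : ℝ) else 0) +
        (if q / 2 ^ i = p / 2 ^ i + 1 then (1 : ℝ) else 0)) := fun q i => by
      split_ifs <;> positivity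
    refine le_trans (sum_le_sum ?_) (sum_le_sum_of_subset_of_nonneg (filter_subset (fun q => p < q) s)
      (fun q _ _ => sum_nonneg fun i _ => h0 q i))
    intro q hq
    obtain ⟨h2, h3⟩ := mem_filter.mp hq
    have h4 : id q ≤ s.sup id := le_sup h2
    simp only [id] at h4
    set l := Nat.log 2 (q - p)
    have h5 : 2 ^ l ≤ q - p := Nat.pow_log_le_self 2 (by omega)
    have h6 : q - p < 2 ^ (l + 1) := Nat.lt_pow_succ_log_self (by norm_num) _
    have h7 : l ≤ q - p := Nat.log_le_self _ _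
    refine le_trans ?_ (single_le_sum (fun i _ => h0 q i) (mem_Ioc.mpr ⟨Nat.succ_pos l, by omega⟩))
    have h8 : p / 2 ^ (l + 1) ≤ q / 2 ^ (l + 1) := Nat.div_le_div_right h3.le
    have h9 : q / 2 ^ (l + 1) ≤ p / 2 ^ (l + 1) + 1 := by
      rw [← Nat.add_div_right p (Nat.two_pow_pos (l + 1))]
      exact Nat.div_le_div_right (by omega)
    have h10 : 1 / ((q : ℝ) - p) ≤ 2 / 2 ^ (l + 1) := by
      have h11 : (2 : ℝ) ^ l ≤ (q : ℝ) - p := by
        rw [← Nat.cast_sub h3.le]; exact_mod_cast h5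
      calc 1 / ((q : ℝ) - p) ≤ 1 / 2 ^ l := one_div_le_one_div_of_le (by positivity) h11
        _ = _ := by field_simp; ring
    refine h10.trans (le_mul_of_one_le_right (by positivity) ?_)
    simp only [Nat.succ_eq_add_one]
    split_ifs <;> first | omega | norm_num
  have h2 : ∑ p ∈ s, ∑ q ∈ s, ∑ i ∈ Ioc 0 N, 2 / 2 ^ i *
      ((if q / 2 ^ i = p / 2 ^ i + 0 then (1 : ℝ) else 0) +
        (if q / 2 ^ i = p / 2 ^ i + 1 then (1 : ℝ) else 0)) ≤
      ∑ i ∈ Ioc 0 N, ∑ p ∈ s, 4 * (dl s i p + 1 / 2 ^ i) := by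
    rw [sum_congr rfl (fun p _ => sum_comm), sum_comm]
    apply sum_le_sum
    intro i _
    simp only [← mul_sum, sum_add_distrib]
    have h3 := adj2 s i 0
    have h4 := adj2 s i 1
    have e : ∑ p ∈ s, dl s i p + ∑ _p ∈ s, (1 : ℝ) / 2 ^ i = (∑ p ∈ s, ac s i p) / 2 ^ i := by
      rw [← sum_add_distrib, sum_div]
      exact sum_congr rfl fun p _ => by unfold dl; ring
    rw [e]
    calc _ ≤ 2 / 2 ^ i * (∑ p ∈ s, ac s i p + ∑ p ∈ s, ac s i p) := by gcongr
      _ = _ := by ring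
  have h3 := dl_sum s hs N
  have h7 : ∑ i ∈ Ioc 0 N, ∑ p ∈ s, 4 * (dl s i p + 1 / 2 ^ i) =
      4 * (∑ p ∈ s, ∑ i ∈ Ioc 0 N, dl s i p + s.card * (1 - 1 / 2 ^ N)) := by
    rw [sum_comm]
    simp only [← mul_sum, sum_add_distrib, geo2, sum_const, nsmul_eq_mul]
  have h4 : (0 : ℝ) < s.card := by exact_mod_cast hne.card_pos
  have h5 : (0 : ℝ) ≤ s.card * (1 / 2 ^ N) := by positivity
  have h6 := (sum_le_sum h1).trans (h2.trans h7.le)
  linarith

end Pool.Agent.H.MP_3aed06_nt
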